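import Pool.Agent.R393.CubT

namespace Pool.Agent.R393.Cub

open Polynomial NumberField Pool.Agent.R393.TraceRed

/-- The element `n0 + n1 π + n2 π²`. -/
noncomputable def el (n0 n1 n2 : ℤ) : K := n0 + n1 * π + n2 * π ^ 2

lemma el_int (n0 n1 n2 : ℤ) : IsIntegral ℤ (el n0 n1 n2) := by
  have h0 : ∀ n : ℤ, IsIntegral ℤ (n : K) := fun n => by
    simpa using (isIntegral_algebraMap (R := ℤ) (A := K) (x := n))
  exact ((h0 _).add ((h0 _).mul pi_int)).add ((h0 _).mul (pi_int.pow 2))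

lemma trace_el (n0 n1 n2 : ℤ) :
    Algebra.trace ℚ K (el n0 n1 n2) = ((3 * n0 - 16 * n1 + 384 * n2 : ℤ) : ℚ) := by
  have := trace_eq (n0 : ℚ) n1 n2
  rw [el]
  push_cast at this ⊢
  exact this

lemma el_mul (a0 a1 a2 n0 n1 n2 : ℤ) : el a0 a1 a2 * el n0 n1 n2 =
    el (a0 * n0 - 22 * (a1 * n2 + a2 * n1) + 352 * (a2 * n2))
      (a0 * n1 + a1 * n0 + 64 * (a1 * n2 + a2 * n1) - 1046 * (a2 * n2))
      (a0 * n2 + a1 * n1 + a2 * n0 - 16 * (a1 * n2 + a2 * n1) + 320 * (a2 * n2)) := by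
  have p3 : π ^ 3 = -16 * π ^ 2 + 64 * π - 22 := by linear_combination pi_eq
  have p4 : π ^ 4 = 320 * π ^ 2 - 1046 * π + 352 := by
    linear_combination (π - 16) * pi_eq
  simp only [el]
  push_cast
  linear_combination ((a1 : K) * n2 + a2 * n1) * p3 + ((a2 : K) * n2) * p4

lemma el_one : el 1 0 0 = 1 := by simp [el]

lemma F_pos : TotPos (el 3 (-1) 0) := by
  intro φ
  have h := root_lt (real_root_eq φ)
  simp only [el, map_add, map_mul, map_pow, map_intCast]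
  push_cast
  linarith

lemma B_pos : TotPos (el 1 (-3) 1) := by
  intro φ
  have h := root_B (real_root_eq φ)
  simp only [el, map_add, map_mul, map_pow, map_intCast]
  push_cast
  linarith

lemma FC : el 3 (-1) 0 * el (-7) 19 1 = 1 := by
  rw [el_mul, ← el_one]; norm_num

lemma BD : el 1 (-3) 1 * el 463 (-131) (-8) = 1 := by
  rw [el_mul, ← el_one]; norm_num

lemma AE : el (-7) 18 1 * el 1213 (-344) (-21) = 1 := by
  rw [el_mul, ← el_one]; norm_num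

lemma BC : el 1 (-3) 1 * el (-7) 19 1 = el (-7) 18 1 := by
  rw [el_mul]; norm_num

lemma C_pos : TotPos (el (-7) 19 1) := by
  have : el (-7) 19 1 = (el 3 (-1) 0)⁻¹ := (inv_eq_of_mul_eq_one_right FC).symm
  rw [this]; exact F_pos.inv

lemma D_pos : TotPos (el 463 (-131) (-8)) := by
  have : el 463 (-131) (-8) = (el 1 (-3) 1)⁻¹ := (inv_eq_of_mul_eq_one_right BD).symm
  rw [this]; exact B_pos.inv

lemma A_pos : TotPos (el (-7) 18 1) := by
  rw [← BC]; exact B_pos.mul C_pos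

lemma E_pos : TotPos (el 1213 (-344) (-21)) := by
  have : el 1213 (-344) (-21) = (el (-7) 18 1)⁻¹ := (inv_eq_of_mul_eq_one_right AE).symm
  rw [this]; exact A_pos.inv

lemma tr_pos {n0 n1 n2 : ℤ} (h : TotPos (el n0 n1 n2)) : 0 < 3 * n0 - 16 * n1 + 384 * n2 := by
  have := trace_pos h
  rw [trace_el] at this
  exact_mod_cast this

/-- The base facet inequalities. -/
lemma base {n0 n1 n2 : ℤ} (h : TotPos (el n0 n1 n2)) :
    1 ≤ n0 + 8 * n2 ∧ 21 ≤ 21 * n0 + 8 * n1 + 24 * n2 := by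
  have t1 := tr_pos h
  have tF := F_pos.mul h
  rw [el_mul] at tF
  have tF' := tr_pos tF
  have tC := C_pos.mul h
  rw [el_mul] at tC
  have tC' := tr_pos tC
  have tD := D_pos.mul h
  rw [el_mul] at tD
  have tD' := tr_pos tD
  have tE := E_pos.mul h
  rw [el_mul] at tE
  have tE' := tr_pos tE
  have g4 : 0 < n0 + 8 * n2 := by linarith
  have g3 : 0 < n0 + n1 + 3 * n2 := by linarith
  have g1 : 0 < 21 * n0 + 8 * n1 + 4 * n2 := by linarith
  constructor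
  · omega
  · omega

/-- All six facet inequalities. -/
lemma facets {n0 n1 n2 : ℤ} (h : TotPos (el n0 n1 n2)) :
    1 ≤ n0 + 8 * n2 ∧ 21 ≤ 21 * n0 + 8 * n1 + 24 * n2 ∧ 1 ≤ n0 + 2 * n1 + 6 * n2 ∧
    21 ≤ 21 * n0 + 42 * n1 + 524 * n2 ∧ 1 ≤ n0 - 6 * n1 + 156 * n2 ∧
    21 ≤ 21 * n0 - 398 * n1 + 7730 * n2 := by
  obtain ⟨h1, h2⟩ := base h
  have tC := C_pos.mul h
  rw [el_mul] at tC
  obtain ⟨h3, -⟩ := base tC
  have tA := A_pos.mul h
  rw [el_mul] at tA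
  obtain ⟨h5, h4⟩ := base tA
  have tB := B_pos.mul h
  rw [el_mul] at tB
  obtain ⟨-, h6⟩ := base tB
  refine ⟨h1, h2, ?_, ?_, ?_, ?_⟩ <;> linarith

/-- The fan of the normal cone at the vertex `1`. -/
lemma fan {X0 X1 X2 n0 n1 n2 : ℤ} (h : TotPos (el n0 n1 n2))
    (hA : X0 ≤ -7 * X0 + 18 * X1 + X2) (hB : X0 ≤ X0 - 3 * X1 + X2)
    (hC : X0 ≤ -7 * X0 + 19 * X1 + X2) (hD : X0 ≤ 463 * X0 - 131 * X1 - 8 * X2)
    (hE : X0 ≤ 1213 * X0 - 344 * X1 - 21 * X2) (hF : X0 ≤ 3 * X0 - X1) :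
    X0 ≤ X0 * n0 + X1 * n1 + X2 * n2 := by
  obtain ⟨f1, f2, f6, f5, f4, f3⟩ := facets h
  have eA : 0 ≤ -8 * X0 + 18 * X1 + X2 := by linarith
  have eB : 0 ≤ -3 * X1 + X2 := by linarith
  have eC : 0 ≤ -8 * X0 + 19 * X1 + X2 := by linarith
  have eD : 0 ≤ 462 * X0 - 131 * X1 - 8 * X2 := by linarith
  have eE : 0 ≤ 1212 * X0 - 344 * X1 - 21 * X2 := by linarith
  have eF : 0 ≤ 2 * X0 - X1 := by linarith
  have g1 : 0 ≤ n0 + 8 * n2 - 1 := by linarith
  have g2 : 0 ≤ 21 * n0 + 8 * n1 + 24 * n2 - 21 := by linarith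
  have g6 : 0 ≤ n0 + 2 * n1 + 6 * n2 - 1 := by linarith
  have g5 : 0 ≤ 21 * n0 + 42 * n1 + 524 * n2 - 21 := by linarith
  have g4 : 0 ≤ n0 - 6 * n1 + 156 * n2 - 1 := by linarith
  have g3 : 0 ≤ 21 * n0 - 398 * n1 + 7730 * n2 - 21 := by linarith
  clear hA hB hC hD hE hF f1 f2 f3 f4 f5 f6
  rcases le_total 0 (8 * X0 - X1 - X2) with w6 | w6
  · have := mul_nonneg eB g1
    have := mul_nonneg eA g6
    have := mul_nonneg w6 g2
    linarith
  rcases le_total 0 (168 * X0 + 178 * X1 - 21 * X2) with w5 | w5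
  · have w6' : 0 ≤ -(8 * X0 - X1 - X2) := by linarith
    have := mul_nonneg eF g1
    have := mul_nonneg w6' g5
    have := mul_nonneg w5 g6
    linarith
  rcases le_total (24 * X0 - 74 * X1 - 3 * X2) 0 with w4 | w4
  · have w4' : 0 ≤ -(24 * X0 - 74 * X1 - 3 * X2) := by linarith
    have w5' : 0 ≤ -(168 * X0 + 178 * X1 - 21 * X2) := by linarith
    have := mul_nonneg eE g1
    have := mul_nonneg w5' g4
    have := mul_nonneg w4' g5
    linarith
  · have := mul_nonneg eD g1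
    have := mul_nonneg w4 g3
    have := mul_nonneg eC g4
    linarith

end Pool.Agent.R393.Cub
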