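import Mathlib

/-!
# The cubic field `ℚ[x]/(x³ + 16 x² - 64 x + 22)` of discriminant `1318132 = 4 · 329533`
-/

namespace Pool.Agent.R393.Cub

open Polynomial NumberField

/-- The polynomial `x³ + 16 x² - 64 x + 22` over `ℤ`. -/
noncomputable def gZ : ℤ[X] := X ^ 3 + 16 * X ^ 2 - 64 * X + 22

/-- The polynomial `x³ + 16 x² - 64 x + 22` over `ℚ`. -/
noncomputable def gQ : ℚ[X] := X ^ 3 + 16 * X ^ 2 - 64 * X + 22

lemma gZ_eq : gZ = X ^ 3 + C 16 * X ^ 2 + C (-64) * X + C 22 := by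
  simp only [gZ, map_neg, map_ofNat]
  ring

lemma gQ_eq : gQ = X ^ 3 + C 16 * X ^ 2 + C (-64) * X + C 22 := by
  simp only [gQ, map_neg, map_ofNat]
  ring

lemma gZ_map : gZ.map (algebraMap ℤ ℚ) = gQ := by
  simp [gZ, gQ, Polynomial.map_ofNat]

lemma gZ_deg : gZ.natDegree = 3 := by
  rw [gZ_eq]; compute_degree!

lemma gZ_monic : gZ.Monic := by
  rw [gZ_eq]; monicity!

lemma gQ_deg : gQ.natDegree = 3 := by
  rw [gQ_eq]; compute_degree!

lemma gQ_monic : gQ.Monic := by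
  rw [gQ_eq]; monicity!

lemma gZ_coeff0 : gZ.coeff 0 = 22 := by
  rw [gZ_eq]; simp [coeff_X]
lemma gZ_coeff1 : gZ.coeff 1 = -64 := by
  rw [gZ_eq]; simp [coeff_X]
lemma gZ_coeff2 : gZ.coeff 2 = 16 := by
  rw [gZ_eq]; simp [coeff_X]

lemma gZ_eis : gZ.IsEisensteinAt (Ideal.span {(2 : ℤ)}) := by
  refine ⟨?_, ?_, ?_⟩
  · rw [gZ_monic.leadingCoeff, Ideal.mem_span_singleton]; norm_num
  · intro n hn
    rw [gZ_deg] at hn
    rw [Ideal.mem_span_singleton]
    interval_cases n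
    · rw [gZ_coeff0]; norm_num
    · rw [gZ_coeff1]; norm_num
    · rw [gZ_coeff2]; norm_num
  · rw [gZ_coeff0, Ideal.span_singleton_pow, Ideal.mem_span_singleton]; norm_num

lemma gZ_irr : Irreducible gZ :=
  gZ_eis.irreducible
    ((Ideal.span_singleton_prime (by norm_num)).2 (by exact Int.prime_two))
    gZ_monic.isPrimitive (by rw [gZ_deg]; norm_num)

lemma gQ_irr : Irreducible gQ := by
  rw [← gZ_map]
  exact (gZ_monic.irreducible_iff_irreducible_map_fraction_map).1 gZ_irr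

instance : Fact (Irreducible gQ) := ⟨gQ_irr⟩

/-- The cubic field `K = ℚ[x]/(x³ + 16 x² - 64 x + 22)`. -/
def K : Type := AdjoinRoot gQ

noncomputable instance : Field K := inferInstanceAs (Field (AdjoinRoot gQ))

instance : CharZero (AdjoinRoot gQ) :=
  charZero_of_injective_algebraMap (algebraMap ℚ (AdjoinRoot gQ)).injective

instance : CharZero K := inferInstanceAs (CharZero (AdjoinRoot gQ))

/-- The generator. -/
noncomputable def π : K := AdjoinRoot.root gQ

lemma exists_pb : ∃ pb : PowerBasis ℚ K, pb.gen = π ∧ pb.dim = 3 :=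
  ⟨(AdjoinRoot.powerBasis gQ_irr.ne_zero : PowerBasis ℚ (AdjoinRoot gQ)), rfl, gQ_deg⟩

/-- The power basis. -/
noncomputable def pb : PowerBasis ℚ K := exists_pb.choose

lemma pb_gen : pb.gen = π := exists_pb.choose_spec.1

lemma pb_dim : pb.dim = 3 := exists_pb.choose_spec.2

noncomputable instance : NumberField K where
  to_charZero := inferInstance
  to_finiteDimensional := pb.finite

lemma aeval_gQ {A : Type*} [CommRing A] [Algebra ℚ A] (x : A) :
    aeval x gQ = x ^ 3 + 16 * x ^ 2 - 64 * x + 22 := by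
  rw [gQ_eq]
  simp only [map_add, map_mul, map_pow, aeval_X, aeval_C, map_neg, map_ofNat]
  ring

lemma pi_eq : π ^ 3 + 16 * π ^ 2 - 64 * π + 22 = 0 := by
  have h := AdjoinRoot.eval₂_root gQ
  have h2 : eval₂ (algebraMap ℚ K) π gQ = 0 := by
    have : algebraMap ℚ K = AdjoinRoot.of gQ := Subsingleton.elim _ _
    rw [this]
    exact h
  rw [← aeval_gQ, aeval_def]
  exact h2

lemma finrank_K : Module.finrank ℚ K = 3 := by
  rw [pb.finrank, pb_dim]

/-- The basis `1, π, π²`. -/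
noncomputable def b : Module.Basis (Fin 3) ℚ K := pb.basis.reindex (finCongr pb_dim)

lemma b_apply (i : Fin 3) : b i = π ^ (i : ℕ) := by
  simp [b, pb_gen]

lemma exists_coord (z : K) : ∃ a0 a1 a2 : ℚ, z = a0 + a1 * π + a2 * π ^ 2 := by
  refine ⟨b.repr z 0, b.repr z 1, b.repr z 2, ?_⟩
  have h := b.sum_repr z
  rw [Fin.sum_univ_three] at h
  rw [b_apply, b_apply, b_apply] at h
  simp only [Algebra.smul_def] at h
  refine Eq.trans h.symm ?_
  simp only [eq_ratCast, Fin.val_zero, Fin.val_one, Fin.val_two, pow_zero, pow_one, mul_one]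

/-- The trace of `a0 + a1 π + a2 π²`. -/
lemma trace_eq (a0 a1 a2 : ℚ) :
    Algebra.trace ℚ K ((a0 : K) + a1 * π + a2 * π ^ 2) = 3 * a0 - 16 * a1 + 384 * a2 := by
  have key : ∀ c0 c1 c2 : ℚ, ∀ i : Fin 3,
      b.repr ((c0 : K) + c1 * π + c2 * π ^ 2) i = ![c0, c1, c2] i := by
    intro c0 c1 c2 i
    have h : (c0 : K) + c1 * π + c2 * π ^ 2 = c0 • b 0 + c1 • b 1 + c2 • b 2 := by
      rw [b_apply, b_apply, b_apply]
      simp [Algebra.smul_def]
    rw [h]
    fin_cases i <;> simp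
  have p3 : π ^ 3 = -16 * π ^ 2 + 64 * π - 22 := by linear_combination pi_eq
  have p4 : π ^ 4 = 320 * π ^ 2 - 1046 * π + 352 := by
    linear_combination (π - 16) * pi_eq
  rw [Algebra.trace_eq_matrix_trace b, Matrix.trace_fin_three]
  simp only [Algebra.leftMulMatrix_eq_repr_mul, b_apply]
  have h0 : ((a0 : K) + a1 * π + a2 * π ^ 2) * π ^ ((0 : Fin 3) : ℕ) =
      (a0 : K) + a1 * π + a2 * π ^ 2 := by simp
  have h1 : ((a0 : K) + a1 * π + a2 * π ^ 2) * π ^ ((1 : Fin 3) : ℕ) =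
      ((-22 * a2 : ℚ) : K) + ((a0 + 64 * a2 : ℚ) : K) * π + ((a1 - 16 * a2 : ℚ) : K) * π ^ 2 := by
    push_cast
    simp only [Fin.val_one, pow_one]
    linear_combination (a2 : K) * p3
  have h2 : ((a0 : K) + a1 * π + a2 * π ^ 2) * π ^ ((2 : Fin 3) : ℕ) =
      ((-22 * a1 + 352 * a2 : ℚ) : K) + ((64 * a1 - 1046 * a2 : ℚ) : K) * π +
        ((a0 - 16 * a1 + 320 * a2 : ℚ) : K) * π ^ 2 := by
    push_cast
    simp only [Fin.val_two]
    linear_combination (a1 : K) * p3 + (a2 : K) * p4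
  rw [h0, h1, h2, key, key, key]
  simp
  ring

end Pool.Agent.R393.Cub
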