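import Pool.Agent.R393.CubField

namespace Pool.Agent.R393.Cub

open Polynomial NumberField

lemma aeval_gZ {A : Type*} [CommRing A] (x : A) :
    aeval x gZ = x ^ 3 + 16 * x ^ 2 - 64 * x + 22 := by
  rw [gZ_eq]
  simp only [map_add, map_mul, map_pow, aeval_X, map_neg, map_ofNat]
  ring

lemma pi_int : IsIntegral ℤ π := by
  refine ⟨gZ, gZ_monic, ?_⟩
  have := aeval_gZ π
  rw [pi_eq] at this
  exact this

lemma minpoly_Z : minpoly ℤ π = gZ := by
  have h1 : minpoly ℚ π = gQ := by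
    symm
    apply minpoly.eq_of_irreducible_of_monic gQ_irr _ gQ_monic
    rw [aeval_gQ]
    exact pi_eq
  have h2 := minpoly.isIntegrallyClosed_eq_field_fractions' ℚ pi_int
  exact (Polynomial.map_injective _ (algebraMap ℤ ℚ).injective_int
    (gZ_map.trans (h1.symm.trans h2))).symm

lemma int_of_isIntegral {x : ℚ} (hx : IsIntegral ℤ x) : ∃ n : ℤ, x = n := by
  obtain ⟨n, hn⟩ := IsIntegrallyClosed.isIntegral_iff.1 hx
  exact ⟨n, by simpa using hn.symm⟩

lemma adjoin_coord {z : K} (hz : z ∈ Algebra.adjoin ℤ {π}) :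
    ∃ a0 a1 a2 : ℤ, z = a0 + a1 * π + a2 * π ^ 2 := by
  rw [Algebra.adjoin_singleton_eq_range_aeval] at hz
  obtain ⟨p, rfl⟩ := hz
  have h1 : (aeval π) p = (aeval π) (p %ₘ gZ) := by
    conv_lhs => rw [← modByMonic_add_div p gZ]
    rw [map_add, map_mul, aeval_gZ, pi_eq, zero_mul, add_zero]
  have hdeg : (p %ₘ gZ).natDegree < 3 := by
    rw [← gZ_deg]
    apply natDegree_modByMonic_lt _ gZ_monic
    intro h
    have := gZ_deg
    rw [h] at this
    simp at this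
  refine ⟨(p %ₘ gZ).coeff 0, (p %ₘ gZ).coeff 1, (p %ₘ gZ).coeff 2, ?_⟩
  change (aeval π) p = _
  rw [h1, aeval_eq_sum_range' hdeg]
  simp [Finset.sum_range_succ]

/-- Integral elements have integral coordinates: `𝓞 K = ℤ[π]`. -/
lemma int_coord {z : K} (hz : IsIntegral ℤ z) :
    ∃ a0 a1 a2 : ℤ, z = a0 + a1 * π + a2 * π ^ 2 := by
  obtain ⟨a0, a1, a2, rfl⟩ := exists_coord z
  set z : K := (a0 : K) + a1 * π + a2 * π ^ 2 with hzdef
  have p3 : π ^ 3 = -16 * π ^ 2 + 64 * π - 22 := by linear_combination pi_eq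
  have p4 : π ^ 4 = 320 * π ^ 2 - 1046 * π + 352 := by
    linear_combination (π - 16) * pi_eq
  obtain ⟨t0, ht0⟩ := int_of_isIntegral (Algebra.isIntegral_trace (L := ℚ) hz)
  obtain ⟨t1, ht1⟩ := int_of_isIntegral (Algebra.isIntegral_trace (L := ℚ) (hz.mul pi_int))
  obtain ⟨t2, ht2⟩ := int_of_isIntegral
    (Algebra.isIntegral_trace (L := ℚ) (hz.mul (pi_int.pow 2)))
  obtain ⟨s, hs⟩ := int_of_isIntegral (Algebra.isIntegral_trace (L := ℚ) (hz.mul hz))
  rw [hzdef, trace_eq] at ht0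
  have e1 : z * π = ((-22 * a2 : ℚ) : K) + ((a0 + 64 * a2 : ℚ) : K) * π +
      ((a1 - 16 * a2 : ℚ) : K) * π ^ 2 := by
    rw [hzdef]; push_cast; linear_combination (a2 : K) * p3
  have e2 : z * π ^ 2 = ((-22 * a1 + 352 * a2 : ℚ) : K) +
      ((64 * a1 - 1046 * a2 : ℚ) : K) * π + ((a0 - 16 * a1 + 320 * a2 : ℚ) : K) * π ^ 2 := by
    rw [hzdef]; push_cast; linear_combination (a1 : K) * p3 + (a2 : K) * p4
  rw [e1, trace_eq] at ht1
  rw [e2, trace_eq] at ht2
  have e3 : z * z = ((a0 * a0 - 44 * a1 * a2 + 352 * a2 * a2 : ℚ) : K) +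
      ((2 * a0 * a1 + 128 * a1 * a2 - 1046 * a2 * a2 : ℚ) : K) * π +
      ((2 * a0 * a2 + a1 * a1 - 32 * a1 * a2 + 320 * a2 * a2 : ℚ) : K) * π ^ 2 := by
    rw [hzdef]; push_cast
    linear_combination (2 * (a1 : K) * a2) * p3 + (a2 : K) * a2 * p4
  rw [e3, trace_eq] at hs
  -- D a = adj(G) t
  have d2 : (1318132 : ℚ) * a2 = -31712 * t0 + 15558 * t1 + 896 * t2 := by
    rw [← ht0, ← ht1, ← ht2]; ring
  have d1 : (1318132 : ℚ) * a1 = -527104 * t0 + 274560 * t1 + 15558 * t2 := by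
    rw [← ht0, ← ht1, ← ht2]; ring
  have d0 : (1318132 : ℚ) * a0 = 1687292 * t0 - 527104 * t1 - 31712 * t2 := by
    rw [← ht0, ← ht1, ← ht2]; ring
  have hq : Prime (329533 : ℤ) := by
    rw [Int.prime_iff_natAbs_prime]; norm_num
  have ds : ((-31712 * t0 + 15558 * t1 + 896 * t2 : ℤ)) ^ 2 =
      329533 * (4 * (896 * s - 3 * t1 ^ 2 - 32 * t0 * t1 - 384 * t0 ^ 2)) := by
    have : (((-31712 * t0 + 15558 * t1 + 896 * t2 : ℤ)) ^ 2 : ℚ) =
      329533 * (4 * (896 * s - 3 * t1 ^ 2 - 32 * t0 * t1 - 384 * t0 ^ 2)) := by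
      push_cast
      rw [← d2, ← hs, ← ht0, ← ht1]; ring
    exact_mod_cast this
  have q2 : (329533 : ℤ) ∣ -31712 * t0 + 15558 * t1 + 896 * t2 :=
    hq.dvd_of_dvd_pow (Dvd.intro _ ds.symm)
  have q1 : (329533 : ℤ) ∣ -527104 * t0 + 274560 * t1 + 15558 * t2 := by
    have h1 : (329533 : ℤ) ∣ 896 * (-527104 * t0 + 274560 * t1 + 15558 * t2) := by
      have : 896 * (-527104 * t0 + 274560 * t1 + 15558 * t2) =
        15558 * (-31712 * t0 + 15558 * t1 + 896 * t2) + 329533 * (4 * (16 * t0 + 3 * t1)) := by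
        ring
      rw [this]
      exact dvd_add (Dvd.dvd.mul_left q2 _) (Dvd.intro _ rfl)
    rcases hq.dvd_or_dvd h1 with h | h
    · norm_num at h
    · exact h
  have q0 : (329533 : ℤ) ∣ 1687292 * t0 - 527104 * t1 - 31712 * t2 := by
    have h1 : (329533 : ℤ) ∣ 896 * (1687292 * t0 - 527104 * t1 - 31712 * t2) := by
      have : 896 * (1687292 * t0 - 527104 * t1 - 31712 * t2) =
        -31712 * (-31712 * t0 + 15558 * t1 + 896 * t2) + 329533 * (4 * (384 * t0 + 16 * t1)) := by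
        ring
      rw [this]
      exact dvd_add (Dvd.dvd.mul_left q2 _) (Dvd.intro _ rfl)
    rcases hq.dvd_or_dvd h1 with h | h
    · norm_num at h
    · exact h
  obtain ⟨k0, hk0⟩ := q0
  obtain ⟨k1, hk1⟩ := q1
  obtain ⟨k2, hk2⟩ := q2
  have f0 : 4 * a0 = k0 := by
    have : (1687292 * t0 - 527104 * t1 - 31712 * t2 : ℚ) = 329533 * k0 := by exact_mod_cast hk0
    linarith
  have f1 : 4 * a1 = k1 := by
    have : (-527104 * t0 + 274560 * t1 + 15558 * t2 : ℚ) = 329533 * k1 := by exact_mod_cast hk1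
    linarith
  have f2 : 4 * a2 = k2 := by
    have : (-31712 * t0 + 15558 * t1 + 896 * t2 : ℚ) = 329533 * k2 := by exact_mod_cast hk2
    linarith
  have hmem : (2 : ℤ) ^ 2 • z ∈ Algebra.adjoin ℤ {pb.gen} := by
    have : (2 : ℤ) ^ 2 • z = (k0 : K) + k1 * π + k2 * π ^ 2 := by
      have g0 : (4 : K) * a0 = k0 := by exact_mod_cast congrArg (fun x : ℚ => (x : K)) f0
      have g1 : (4 : K) * a1 = k1 := by exact_mod_cast congrArg (fun x : ℚ => (x : K)) f1
      have g2 : (4 : K) * a2 = k2 := by exact_mod_cast congrArg (fun x : ℚ => (x : K)) f2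
      rw [← g0, ← g1, ← g2, hzdef, zsmul_eq_mul]
      push_cast; ring
    rw [this, pb_gen]
    have hpi : π ∈ Algebra.adjoin ℤ {π} := Algebra.self_mem_adjoin_singleton ℤ π
    refine add_mem (add_mem ?_ (mul_mem ?_ hpi)) (mul_mem ?_ (pow_mem hpi 2))
    · exact intCast_mem _ _
    · exact intCast_mem _ _
    · exact intCast_mem _ _
  have := mem_adjoin_of_smul_prime_pow_smul_of_minpoly_isEisensteinAt (B := pb)
    (R := ℤ) (K := ℚ) (p := 2) Int.prime_two (by rw [pb_gen]; exact pi_int) hz hmem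
    (by rw [pb_gen, minpoly_Z]; exact gZ_eis)
  rw [pb_gen] at this
  exact adjoin_coord this

end Pool.Agent.R393.Cub
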