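import Pool.Agent.R393.CubFan

namespace Pool.Agent.R393.Cub

open Polynomial NumberField Pool.Agent.R393.TraceRed

/-- The element `n0 + n1 π + n2 π²` of the ring of integers. -/
noncomputable def elO (n0 n1 n2 : ℤ) : 𝓞 K := ⟨el n0 n1 n2, el_int n0 n1 n2⟩

lemma elO_coe (n0 n1 n2 : ℤ) : ((elO n0 n1 n2 : 𝓞 K) : K) = el n0 n1 n2 := rfl

/-- A unit from a product equal to one. -/
noncomputable def mkU (a0 a1 a2 c0 c1 c2 : ℤ) (h : el a0 a1 a2 * el c0 c1 c2 = 1) : (𝓞 K)ˣ where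
  val := elO a0 a1 a2
  inv := elO c0 c1 c2
  val_inv := by apply RingOfIntegers.ext; exact h
  inv_val := by apply RingOfIntegers.ext; rw [mul_comm]; exact h

lemma mkU_coe {a0 a1 a2 c0 c1 c2 : ℤ} (h : el a0 a1 a2 * el c0 c1 c2 = 1) :
    (((mkU a0 a1 a2 c0 c1 c2 h : (𝓞 K)ˣ) : 𝓞 K) : K) = el a0 a1 a2 := rfl

lemma trace_el_mul (y : K) (u0 u1 u2 : ℤ) :
    Algebra.trace ℚ K (y * el u0 u1 u2) = u0 * Algebra.trace ℚ K y +
      u1 * Algebra.trace ℚ K (y * π) + u2 * Algebra.trace ℚ K (y * π ^ 2) := by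
  have : y * el u0 u1 u2 = (u0 : ℚ) • y + (u1 : ℚ) • (y * π) + (u2 : ℚ) • (y * π ^ 2) := by
    simp only [el, Algebra.smul_def, eq_ratCast]
    push_cast
    ring
  rw [this, map_add, map_add, map_smul, map_smul, map_smul]
  simp

theorem propertyT : PropertyT K := by
  intro q hq x hx
  rcases hx with ⟨hdual, hpos, m, hm, hmq⟩ | hx
  swap
  · rw [Set.mem_singleton_iff] at hx
    subst hx
    refine ⟨1, ?_, ?_⟩
    · simpa using TotPos.one
    · simp only [mul_zero, map_zero]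
      exact_mod_cast (by linarith : (0 : ℤ) < q)
  classical
  -- integrality and positivity of the traces along the orbit
  have htr : ∀ ε : (𝓞 K)ˣ, TotPos ((ε : 𝓞 K) : K) →
      ∃ n : ℕ, Algebra.trace ℚ K (((ε : 𝓞 K) : K) * x) = n := by
    intro ε hε
    obtain ⟨n, hn⟩ := hdual (ε : 𝓞 K)
    have hp := trace_pos (hε.mul hpos)
    rw [mul_comm] at hn
    rw [hn] at hp
    have hn0 : 0 < n := by exact_mod_cast hp
    refine ⟨n.toNat, ?_⟩
    rw [hn]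
    have : ((n.toNat : ℤ) : ℚ) = (n : ℚ) := by rw [Int.toNat_of_nonneg hn0.le]
    exact_mod_cast this.symm
  have hex : ∃ n : ℕ, ∃ ε : (𝓞 K)ˣ, TotPos ((ε : 𝓞 K) : K) ∧
      Algebra.trace ℚ K (((ε : 𝓞 K) : K) * x) = n := by
    obtain ⟨n, hn⟩ := htr 1 (by simpa using TotPos.one)
    exact ⟨n, 1, by simpa using TotPos.one, hn⟩
  obtain ⟨ε, hε, hεn⟩ := Nat.find_spec hex
  have hmin : ∀ u : (𝓞 K)ˣ, TotPos ((u : 𝓞 K) : K) →
      Algebra.trace ℚ K (((ε : 𝓞 K) : K) * x) ≤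
        Algebra.trace ℚ K ((((ε : 𝓞 K) : K) * x) * ((u : 𝓞 K) : K)) := by
    intro u hu
    have hpos' : TotPos (((u * ε : (𝓞 K)ˣ) : 𝓞 K) : K) := by
      simpa using hu.mul hε
    obtain ⟨n, hn⟩ := htr (u * ε) hpos'
    have h1 : Nat.find hex ≤ n := Nat.find_min' hex ⟨u * ε, hpos', hn⟩
    have h2 : (((ε : 𝓞 K) : K) * x) * ((u : 𝓞 K) : K) = (((u * ε : (𝓞 K)ˣ) : 𝓞 K) : K) * x := by
      push_cast
      ring
    rw [h2, hn, hεn]
    exact_mod_cast h1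
  refine ⟨ε, hε, ?_⟩
  set y : K := ((ε : 𝓞 K) : K) * x with hy
  -- integer coordinates of y in the dual basis
  have hdy : ∀ z : 𝓞 K, ∃ n : ℤ, Algebra.trace ℚ K (y * (z : K)) = n := by
    intro z
    obtain ⟨n, hn⟩ := hdual ((ε : 𝓞 K) * z)
    refine ⟨n, ?_⟩
    rw [← hn, hy]
    congr 1
    push_cast
    ring
  obtain ⟨X0, hX0⟩ : ∃ n : ℤ, Algebra.trace ℚ K y = n := by
    obtain ⟨n, hn⟩ := hdy 1
    exact ⟨n, by simpa using hn⟩
  obtain ⟨X1, hX1⟩ : ∃ n : ℤ, Algebra.trace ℚ K (y * π) = n := by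
    obtain ⟨n, hn⟩ := hdy ⟨π, pi_int⟩
    exact ⟨n, hn⟩
  obtain ⟨X2, hX2⟩ : ∃ n : ℤ, Algebra.trace ℚ K (y * π ^ 2) = n := by
    obtain ⟨n, hn⟩ := hdy ⟨π ^ 2, pi_int.pow 2⟩
    exact ⟨n, hn⟩
  have hval : ∀ u0 u1 u2 : ℤ, Algebra.trace ℚ K (y * el u0 u1 u2) =
      ((u0 * X0 + u1 * X1 + u2 * X2 : ℤ) : ℚ) := by
    intro u0 u1 u2
    rw [trace_el_mul, hX0, hX1, hX2]
    push_cast
    ring
  have key : ∀ (a0 a1 a2 c0 c1 c2 : ℤ) (h : el a0 a1 a2 * el c0 c1 c2 = 1),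
      TotPos (el a0 a1 a2) → X0 ≤ a0 * X0 + a1 * X1 + a2 * X2 := by
    intro a0 a1 a2 c0 c1 c2 h hp
    have := hmin (mkU a0 a1 a2 c0 c1 c2 h) (by rw [mkU_coe]; exact hp)
    rw [mkU_coe, hval, hX0] at this
    exact_mod_cast this
  have kA := key _ _ _ _ _ _ AE A_pos
  have kB := key _ _ _ _ _ _ BD B_pos
  have kC := key (-7) 19 1 3 (-1) 0 (by rw [mul_comm]; exact FC) C_pos
  have kD := key 463 (-131) (-8) 1 (-3) 1 (by rw [mul_comm]; exact BD) D_pos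
  have kE := key 1213 (-344) (-21) (-7) 18 1 (by rw [mul_comm]; exact AE) E_pos
  have kF := key _ _ _ _ _ _ FC F_pos
  -- the element ε⁻¹ m
  obtain ⟨n0, n1, n2, hn⟩ := int_coord (((ε⁻¹ : (𝓞 K)ˣ) : 𝓞 K) * m).2
  have hn' : ((((ε⁻¹ : (𝓞 K)ˣ) : 𝓞 K) * m : 𝓞 K) : K) = el n0 n1 n2 := hn
  have hεε : ((ε : 𝓞 K) : K) * (((ε⁻¹ : (𝓞 K)ˣ) : 𝓞 K) : K) = 1 := by
    exact congrArg (fun z : 𝓞 K => (z : K)) (Units.mul_inv ε)
  have hpn : TotPos (el n0 n1 n2) := by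
    rw [← hn', show ((((ε⁻¹ : (𝓞 K)ˣ) : 𝓞 K) * m : 𝓞 K) : K) =
      (((ε⁻¹ : (𝓞 K)ˣ) : 𝓞 K) : K) * (m : K) from rfl]
    have h1 : (((ε⁻¹ : (𝓞 K)ˣ) : 𝓞 K) : K) = (((ε : 𝓞 K) : K))⁻¹ :=
      (inv_eq_of_mul_eq_one_right hεε).symm
    rw [h1]
    exact hε.inv.mul hm
  have hfan := fan hpn (X0 := X0) (X1 := X1) (X2 := X2) (by linarith) (by linarith)
    (by linarith) (by linarith) (by linarith) (by linarith)
  have hxm : Algebra.trace ℚ K (x * (m : K)) = ((n0 * X0 + n1 * X1 + n2 * X2 : ℤ) : ℚ) := by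
    rw [← hval, ← hn', hy, show ((((ε⁻¹ : (𝓞 K)ˣ) : 𝓞 K) * m : 𝓞 K) : K) =
      (((ε⁻¹ : (𝓞 K)ˣ) : 𝓞 K) : K) * (m : K) from rfl]
    congr 1
    linear_combination (-(x * (m : K))) * hεε
  rw [hX0]
  rw [hxm] at hmq
  have h1 : n0 * X0 + n1 * X1 + n2 * X2 < q := by exact_mod_cast hmq
  exact_mod_cast (by linarith : X0 < q)

/-! ### Non-membership in the two families -/

/-- The trace of an irrational root of `x³ - t₁ x² + t₂ x - 1`. -/
lemma trace_of_cubic {α : K} {t1 t2 : ℚ} (h : α ^ 3 - t1 * α ^ 2 + t2 * α - 1 = 0)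
    (hα : ∀ c : ℚ, α ≠ c) : Algebra.trace ℚ K α = t1 := by
  have hint : IsIntegral ℚ α := .of_finite ℚ α
  set P : ℚ[X] := X ^ 3 + C (-t1) * X ^ 2 + C t2 * X + C (-1) with hP
  have hPm : P.Monic := by rw [hP]; monicity!
  have hPd : P.natDegree = 3 := by rw [hP]; compute_degree!
  have hP0 : aeval α P = 0 := by
    rw [hP]
    simp only [map_add, map_mul, map_pow, aeval_X, aeval_C, eq_ratCast]
    push_cast
    linear_combination h
  have hdvd : minpoly ℚ α ∣ P := minpoly.dvd ℚ α hP0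
  have h1 := Module.finrank_mul_finrank ℚ (IntermediateField.adjoin ℚ {α}) K
  rw [IntermediateField.adjoin.finrank hint, finrank_K] at h1
  have h2 : (minpoly ℚ α).natDegree = 1 ∨ (minpoly ℚ α).natDegree = 3 :=
    (Nat.dvd_prime Nat.prime_three).1 (Dvd.intro _ h1)
  rcases h2 with h2 | h2
  · exfalso
    obtain ⟨c, hc⟩ := minpoly.natDegree_eq_one_iff.1 h2
    exact hα c (by rw [← hc]; simp)
  · have h3 : minpoly ℚ α = P :=
      (Polynomial.eq_of_monic_of_dvd_of_natDegree_le (minpoly.monic hint) hPm hdvd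
        (by rw [hPd, h2])).symm
    rw [h2] at h1
    have h4 : Module.finrank (IntermediateField.adjoin ℚ {α}) K = 1 := by omega
    rw [trace_eq_finrank_mul_minpoly_nextCoeff, h4, h3,
      nextCoeff_of_natDegree_pos (by rw [hPd]; norm_num), hPd]
    rw [hP]
    simp [coeff_one]

lemma el_sub_int (a0 a1 a2 r : ℤ) : el a0 a1 a2 - (r : K) = el (a0 - r) a1 a2 := by
  simp only [el]; push_cast; ring

lemma el_inj {a0 a1 a2 c0 c1 c2 : ℤ} (h : el a0 a1 a2 = el c0 c1 c2) :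
    a0 = c0 ∧ a1 = c1 ∧ a2 = c2 := by
  have key : ∀ d0 d1 d2 : ℤ, ∀ i : Fin 3,
      b.repr (el d0 d1 d2) i = ![(d0 : ℚ), d1, d2] i := by
    intro c0 c1 c2 i
    have h : el c0 c1 c2 = (c0 : ℚ) • b 0 + (c1 : ℚ) • b 1 + (c2 : ℚ) • b 2 := by
      rw [b_apply, b_apply, b_apply]
      simp [el, Algebra.smul_def]
    rw [h]
    fin_cases i <;> simp
  have h0 := key a0 a1 a2 0
  have h1 := key a0 a1 a2 1
  have h2 := key a0 a1 a2 2
  rw [h, key] at h0 h1 h2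
  simp at h0 h1 h2
  exact ⟨h0.symm, h1.symm, h2.symm⟩

/-- No root of `x (x - r) (x - s) - 1`, `1 ≤ r ≤ s - 2`, lies in `K`. -/
theorem not_sfam (r s : ℤ) (hr : 1 ≤ r) (hs : r ≤ s - 2) (α : K) :
    α * (α - r) * (α - s) ≠ 1 := by
  intro h
  -- α is integral
  have hα : IsIntegral ℤ α := by
    refine ⟨X ^ 3 + C (-(r + s)) * X ^ 2 + C (r * s) * X + C (-1), by monicity!, ?_⟩
    simp only [eval₂_add, eval₂_mul, eval₂_pow, eval₂_X, eval₂_C]
    simp only [eq_intCast]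
    push_cast
    linear_combination h
  obtain ⟨a0, a1, a2, ha⟩ := int_coord hα
  have ha' : α = el a0 a1 a2 := ha
  rw [ha'] at h
  rw [el_sub_int, el_sub_int, el_mul, el_mul, ← el_one] at h
  obtain ⟨h0, -, -⟩ := el_inj h
  -- parity
  have p0 : (a0 * (a0 - r) * (a0 - s)) % 2 = 1 := by
    generalize hM : (a0 * a1 + a1 * (a0 - r) + 64 * (a1 * a2 + a2 * a1) - 1046 * (a2 * a2)) = M
      at h0
    generalize hN : (a0 * a2 + a1 * a1 + a2 * (a0 - r) - 16 * (a1 * a2 + a2 * a1) +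
      320 * (a2 * a2)) = N at h0
    have : a0 * (a0 - r) * (a0 - s) = 1 + 2 * (11 * (a1 * a2 + a2 * a1) * (a0 - s)
      - 176 * (a2 * a2) * (a0 - s) + 11 * (M * a2 + N * a1) - 176 * (N * a2)) := by
      linear_combination h0
    rw [this]
    omega
  have p1 : a0 % 2 = 1 ∧ r % 2 = 0 ∧ s % 2 = 0 := by
    rcases Int.emod_two_eq_zero_or_one a0 with e0 | e0 <;>
    rcases Int.emod_two_eq_zero_or_one r with er | er <;>
    rcases Int.emod_two_eq_zero_or_one s with es | es <;>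
    simp [Int.mul_emod, Int.sub_emod, e0, er, es] at p0 ⊢
  -- the trace
  have hc : ∀ c : ℚ, α ≠ c := by
    intro c hc
    have hci : IsIntegral ℤ c := by
      have : IsIntegral ℤ ((algebraMap ℚ K) c) := by
        rw [eq_ratCast, ← hc]; exact hα
      exact (isIntegral_algebraMap_iff (algebraMap ℚ K).injective).1 this
    obtain ⟨n, hn⟩ := int_of_isIntegral hci
    have hα' : α = el n 0 0 := by rw [hc, hn, el]; push_cast; ring
    rw [ha'] at hα'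
    obtain ⟨e0, e1, e2⟩ := el_inj hα'
    subst e0 e1 e2
    have h5 : a0 * (a0 - r) * (a0 - s) = 1 := by linarith
    have h6 : a0 = 1 ∨ a0 = -1 := Int.isUnit_iff.1
      (IsUnit.of_mul_eq_one ((a0 - r) * (a0 - s)) (by rw [← h5]; ring))
    rcases h6 with h6 | h6
    · subst h6
      have hr2 : 2 ≤ r := by omega
      nlinarith
    · subst h6
      nlinarith
  have ht := trace_of_cubic (α := α) (t1 := r + s) (t2 := r * s) (by
    have h' : α * (α - r) * (α - s) = 1 := by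
      rw [ha', el_sub_int, el_sub_int, el_mul, el_mul, ← el_one]; exact h
    push_cast
    linear_combination h') hc
  rw [ha', trace_el] at ht
  have ht' : 3 * a0 - 16 * a1 + 384 * a2 = r + s := by exact_mod_cast ht
  omega

/-- No root of `x³ + (n+1) x² + (n-2) x - 1` lies in `K`. -/
theorem not_nfam (n : ℤ) (α : K) : α ^ 3 + (n + 1) * α ^ 2 + (n - 2) * α - 1 ≠ 0 := by
  intro h
  have hα : IsIntegral ℤ α := by
    refine ⟨X ^ 3 + C (n + 1) * X ^ 2 + C (n - 2) * X + C (-1), by monicity!, ?_⟩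
    simp only [eval₂_add, eval₂_mul, eval₂_pow, eval₂_X, eval₂_C]
    simp only [eq_intCast]
    push_cast
    linear_combination h
  obtain ⟨a0, a1, a2, ha⟩ := int_coord hα
  have ha' : α = el a0 a1 a2 := ha
  obtain ⟨b0, b1, b2, hb, hb0⟩ : ∃ b0 b1 b2 : ℤ, α ^ 2 = el b0 b1 b2 ∧
      ∃ k, b0 = a0 ^ 2 + 2 * k := by
    rw [ha', pow_two, el_mul]
    exact ⟨_, _, _, rfl, -11 * (a1 * a2 + a2 * a1) + 176 * (a2 * a2), by ring⟩
  obtain ⟨c0, c1, c2, hc, hc0⟩ : ∃ c0 c1 c2 : ℤ, α ^ 3 = el c0 c1 c2 ∧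
      ∃ k, c0 = b0 * a0 + 2 * k := by
    rw [pow_succ, hb, ha', el_mul]
    exact ⟨_, _, _, rfl, -11 * (b1 * a2 + b2 * a1) + 176 * (b2 * a2), by ring⟩
  have h2 : el (c0 + (n + 1) * b0 + (n - 2) * a0 - 1) (c1 + (n + 1) * b1 + (n - 2) * a1)
      (c2 + (n + 1) * b2 + (n - 2) * a2) = el 0 0 0 := by
    have h0 : el 0 0 0 = 0 := by simp [el]
    rw [h0, ← h, hb, hc, ha']
    simp only [el]
    push_cast
    ring
  obtain ⟨e0, -, -⟩ := el_inj h2
  obtain ⟨k, hk⟩ := hb0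
  obtain ⟨l, hl⟩ := hc0
  subst hk
  subst hl
  have p0 : ((a0 ^ 2 * a0 + (n + 1) * a0 ^ 2 + (n - 2) * a0)) % 2 = 1 := by
    have : a0 ^ 2 * a0 + (n + 1) * a0 ^ 2 + (n - 2) * a0 =
        1 + 2 * (-(k * a0) - l - (n + 1) * k) := by linear_combination e0
    rw [this]
    omega
  rcases Int.emod_two_eq_zero_or_one a0 with e0 | e0 <;>
  rcases Int.emod_two_eq_zero_or_one n with er | er <;>
  simp [Int.mul_emod, Int.sub_emod, Int.add_emod, pow_two, e0, er] at p0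

end Pool.Agent.R393.Cub
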