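import Mathlib

/-!
# Property (T) of a number field (trace-reduced cusp defect sets)

The definitions of the problem, for a number field `K` with ring of integers `𝓞 K`.
-/

namespace Pool.Agent.R393.TraceRed

open NumberField

/-- Totally positive: positive under every real embedding. -/
def TotPos {K : Type*} [Field K] (x : K) : Prop := ∀ φ : K →+* ℝ, 0 < φ x

/-- The trace dual of the ring of integers: all `x ∈ K` with `tr(x m) ∈ ℤ` for all
`m ∈ 𝓞 K`. -/
def dual (K : Type*) [Field K] [NumberField K] : Set K :=
  {x | ∀ m : 𝓞 K, ∃ n : ℤ, Algebra.trace ℚ K (x * (m : K)) = n}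

/-- The set `Λ_q(𝓞 K)`: the totally positive elements `x` of the trace dual such that
`tr(x m) < q` for some totally positive integer `m`, together with `0`. -/
def Lam (K : Type*) [Field K] [NumberField K] (q : ℤ) : Set K :=
  {x | x ∈ dual K ∧ TotPos x ∧
    ∃ m : 𝓞 K, TotPos (m : K) ∧ Algebra.trace ℚ K (x * (m : K)) < q} ∪ {0}

/-- Property (T): for every integer `q ≥ 1` every orbit in `Λ_q(𝓞 K)` of the group of the totally
positive units contains an element of trace less than `q`. -/
def PropertyT (K : Type*) [Field K] [NumberField K] : Prop :=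
  ∀ q : ℤ, 1 ≤ q → ∀ x ∈ Lam K q,
    ∃ ε : (𝓞 K)ˣ, TotPos ((ε : 𝓞 K) : K) ∧ Algebra.trace ℚ K (((ε : 𝓞 K) : K) * x) < q

end Pool.Agent.R393.TraceRed
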