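import Pool.Agent.R393.CubInt
import Pool.Agent.R393.TraceRed

namespace Pool.Agent.R393.Cub

open Polynomial NumberField

open Pool.Agent.R393.TraceRed

lemma _root_.Pool.Agent.R393.TraceRed.TotPos.mul {K : Type*} [Field K] {x y : K} (hx : TotPos x) (hy : TotPos y) :
    TotPos (x * y) := fun φ => by rw [map_mul]; exact mul_pos (hx φ) (hy φ)

lemma _root_.Pool.Agent.R393.TraceRed.TotPos.inv {K : Type*} [Field K] {x : K} (hx : TotPos x) : TotPos x⁻¹ :=
  fun φ => by rw [map_inv₀]; exact inv_pos.2 (hx φ)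

lemma _root_.Pool.Agent.R393.TraceRed.TotPos.one {K : Type*} [Field K] : TotPos (1 : K) := fun φ => by rw [map_one]; exact one_pos

/-! ### Real roots -/

lemma real_root_eq (φ : K →+* ℝ) : φ π ^ 3 + 16 * φ π ^ 2 - 64 * φ π + 22 = 0 := by
  have := congrArg φ pi_eq
  simpa [map_ofNat] using this

lemma root_lt {x : ℝ} (hx : x ^ 3 + 16 * x ^ 2 - 64 * x + 22 = 0) : x < 3 := by
  by_contra h
  push Not at h
  nlinarith [mul_nonneg (sub_nonneg.2 h) (sub_nonneg.2 h), mul_nonneg (sub_nonneg.2 h)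
    (mul_nonneg (sub_nonneg.2 h) (sub_nonneg.2 h))]

lemma root_B {x : ℝ} (hx : x ^ 3 + 16 * x ^ 2 - 64 * x + 22 = 0) : 0 < x ^ 2 - 3 * x + 1 := by
  by_contra h
  push Not at h
  have h1 : (x ^ 2 - 3 * x + 1) * (x + 19) = 8 * x - 3 := by linear_combination hx
  have h2 : 0 < x := by nlinarith
  have h3 : 8 * x - 3 ≤ 0 := by
    rw [← h1]
    exact mul_nonpos_of_nonpos_of_nonneg h (by linarith)
  nlinarith

lemma exists_roots : ∃ x y : ℝ, x ≠ y ∧ x ^ 3 + 16 * x ^ 2 - 64 * x + 22 = 0 ∧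
    y ^ 3 + 16 * y ^ 2 - 64 * y + 22 = 0 := by
  have hc : Continuous fun x : ℝ => x ^ 3 + 16 * x ^ 2 - 64 * x + 22 := by fun_prop
  have h1 := intermediate_value_Icc' (show (0 : ℝ) ≤ 1 by norm_num) hc.continuousOn
  have h2 := intermediate_value_Icc (show (1 : ℝ) ≤ 3 by norm_num) hc.continuousOn
  obtain ⟨x, hx, hx'⟩ := h1 (show (0 : ℝ) ∈ _ by constructor <;> norm_num)
  obtain ⟨y, hy, hy'⟩ := h2 (show (0 : ℝ) ∈ _ by constructor <;> norm_num)
  refine ⟨x, y, ?_, hx', hy'⟩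
  rintro rfl
  have : x = 1 := le_antisymm hx.2 hy.1
  subst this
  norm_num at hx'

lemma complex_root_real {w : ℂ} (hw : w ^ 3 + 16 * w ^ 2 - 64 * w + 22 = 0) : w.im = 0 := by
  by_contra hb
  obtain ⟨x, y, hxy, hx, hy⟩ := exists_roots
  set a := w.re
  set c := w.im with hc
  have hwac : w = (a : ℂ) + c * Complex.I := (Complex.re_add_im w).symm
  rw [hwac] at hw
  have hre := congrArg Complex.re hw
  have him := congrArg Complex.im hw
  simp only [pow_succ, pow_zero, one_mul, Complex.add_re, Complex.sub_re, Complex.mul_re,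
    Complex.ofReal_re, Complex.I_re, Complex.ofReal_im, Complex.I_im, Complex.add_im,
    Complex.mul_im, Complex.sub_im, Complex.re_ofNat, Complex.im_ofNat, Complex.zero_re,
    Complex.zero_im] at hre him
  have e1 : c * (3 * a ^ 2 - c ^ 2 + 32 * a - 64) = 0 := by linear_combination him
  have e2 : 3 * a ^ 2 - c ^ 2 + 32 * a - 64 = 0 := (mul_eq_zero.1 e1).resolve_left hb
  have e3 : a ^ 3 - 3 * a * c ^ 2 + 16 * (a ^ 2 - c ^ 2) - 64 * a + 22 = 0 := by
    linear_combination hre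
  have hfac : ∀ t : ℝ, t ^ 3 + 16 * t ^ 2 - 64 * t + 22 =
      ((t - a) ^ 2 + c ^ 2) * (t + 16 + 2 * a) := by
    intro t
    linear_combination t * e2 + e3 - a * e2
  have hc2 : 0 < c ^ 2 := by positivity
  have key : ∀ t : ℝ, t ^ 3 + 16 * t ^ 2 - 64 * t + 22 = 0 → t = -16 - 2 * a := by
    intro t ht
    rw [hfac] at ht
    rcases mul_eq_zero.1 ht with h | h
    · have : 0 < (t - a) ^ 2 + c ^ 2 := by positivity
      linarith
    · linarith
  exact hxy ((key x hx).trans (key y hy).symm)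

lemma embedding_real (φ : K →+* ℂ) : ComplexEmbedding.IsReal φ := by
  rw [ComplexEmbedding.isReal_iff]
  have h1 : φ π ^ 3 + 16 * φ π ^ 2 - 64 * φ π + 22 = 0 := by
    have := congrArg φ pi_eq
    simpa [map_ofNat] using this
  have h2 := complex_root_real h1
  have h3 : (starRingEnd ℂ) (φ π) = φ π := Complex.conj_eq_iff_im.2 h2
  ext z
  obtain ⟨a0, a1, a2, rfl⟩ := exists_coord z
  simp [ComplexEmbedding.conjugate_coe_eq, h3]

instance : IsTotallyReal K where
  isReal v := by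
    rw [← InfinitePlace.mk_embedding v, InfinitePlace.isReal_mk_iff]
    exact embedding_real _

/-- The trace of a totally positive element is positive. -/
lemma trace_pos {z : K} (hz : TotPos z) : 0 < Algebra.trace ℚ K z := by
  have h := trace_eq_sum_embeddings (K := ℚ) (L := K) ℂ (x := z)
  have h2 : ∀ σ : K →ₐ[ℚ] ℂ, (((embedding_real (σ : K →+* ℂ)).embedding z : ℝ) : ℂ) = σ z := by
    intro σ
    rw [ComplexEmbedding.IsReal.coe_embedding_apply]
    rfl
  simp_rw [← h2] at h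
  rw [← Complex.ofReal_sum] at h
  have h3 : ((Algebra.trace ℚ K z : ℚ) : ℝ) =
      ∑ σ : K →ₐ[ℚ] ℂ, (embedding_real (σ : K →+* ℂ)).embedding z := by
    have h4 : (algebraMap ℚ ℂ) (Algebra.trace ℚ K z) = (((Algebra.trace ℚ K z : ℚ) : ℝ) : ℂ) := by
      simp
    rw [h4] at h
    exact Complex.ofReal_injective h
  have hne : (Finset.univ : Finset (K →ₐ[ℚ] ℂ)).Nonempty := by
    rw [← Finset.card_pos, Finset.card_univ, AlgHom.card, finrank_K]
    norm_num
  have h5 : (0 : ℝ) < ∑ σ : K →ₐ[ℚ] ℂ, (embedding_real (σ : K →+* ℂ)).embedding z :=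
    Finset.sum_pos (fun σ _ => hz _) hne
  rw [← h3] at h5
  exact_mod_cast h5

end Pool.Agent.R393.Cub
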